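import Pool.Agent.Lib.MP_ff3579_an.X.Iface
import Pool.Agent.Lib.MP_ff3579_an.H78.Cheb

/-!
Module MID: `k ≥ 30`, `4 k ^ 2 ≤ N`, `2 N < (8 k - 2) ^ 100` imply `Win N k`.
-/

set_option autoImplicit false

open Finset

namespace Pool.Agent.Lib.MP_ff3579_an.X.H61

open Pool.Agent.Lib.MP_ff3579_an Pool.Agent.Lib.MP_ff3579_an.X Pool.Agent.Lib.MP_ff3579_an.H78

/-- members of the bad set -/
theorem mem_badSet {N k p : ℕ} (h : p ∈ badSet N k) : p.Prime ∧ 8 * k ≤ p + 2 ∧
    p < 2 * k * (2 + Nat.log p (2 * N)) := by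
  unfold badSet at h
  rw [Finset.mem_filter] at h
  exact h.2

theorem log_le_A {N k p : ℕ} (hk : 30 ≤ k) (h : 8 * k ≤ p + 2) :
    Nat.log p (2 * N) ≤ Nat.log (8 * k - 2) (2 * N) :=
  Nat.log_anti_left (by omega) (by omega)

/-- the factor of a bad prime is at most `(8 k - 2) ^ 2` -/
theorem fac_le {N k p : ℕ} (hk : 30 ≤ k) (h : p ∈ badSet N k)
    (hA : Nat.log (8 * k - 2) (2 * N) ≤ 99) : fac N k p ≤ (8 * k - 2) ^ 2 := by
  obtain ⟨h1, h2, h3⟩ := mem_badSet h
  have h4 := log_le_A (N := N) hk h2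
  obtain ⟨m, hm⟩ : ∃ m, m = 8 * k - 2 := ⟨_, rfl⟩
  rw [← hm] at h4 hA ⊢
  have h5 : 400 * k ≤ m ^ 2 := by
    have e1 : 7 * k ≤ m := by omega
    have e2 : 238 ≤ m := by omega
    have e3 := Nat.mul_le_mul e1 e2
    rw [pow_two]
    omega
  have h6 : 1 + Nat.log p (2 * N) ≤ 100 := by omega
  have h7 : 4 * k * (1 + Nat.log p (2 * N)) ≤ 400 * k := by nlinarith
  unfold fac
  split_ifs with h8
  · omega
  · have h9 : 2 + Nat.log p (2 * N) ≤ 101 := by omega
    have h10 : 2 * k * (2 + Nat.log p (2 * N)) ≤ 202 * k := by nlinarith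
    omega

/-- the number of bad primes -/
theorem card_badSet {N k B : ℕ} (hk : 30 ≤ k) (hA : Nat.log (8 * k - 2) (2 * N) = B + 2) :
    (badSet N k).card ≤ k * B + 1 := by
  have h : (badSet N k).card ≤ (Finset.range (k * B + 1)).card := by
    apply Finset.card_le_card_of_injOn (fun p => (p - (8 * k - 2)) / 2)
    · intro p hp
      obtain ⟨h1, h2, h3⟩ := mem_badSet hp
      have h4 := log_le_A (N := N) hk h2
      rw [hA] at h4
      have h5 : 2 * k * (2 + Nat.log p (2 * N)) ≤ 2 * k * (2 + (B + 2)) :=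
        Nat.mul_le_mul_left _ (by omega)
      have h6 : 2 * k * (2 + (B + 2)) = 2 * (k * B) + 8 * k := by ring
      rw [Finset.coe_range, Set.mem_Iio]
      show (p - (8 * k - 2)) / 2 < k * B + 1
      omega
    · intro p hp q hq hpq
      obtain ⟨h1, h2, -⟩ := mem_badSet hp
      obtain ⟨h3, h4, -⟩ := mem_badSet hq
      have h5 : p % 2 = 1 := by
        rcases h1.eq_two_or_odd with h | h
        · omega
        · exact h
      have h6 : q % 2 = 1 := by
        rcases h3.eq_two_or_odd with h | h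
        · omega
        · exact h
      have h7 : (p - (8 * k - 2)) / 2 = (q - (8 * k - 2)) / 2 := hpq
      omega
  rwa [Finset.card_range] at h

/-- no bad primes when `A ≤ 1` -/
theorem badSet_empty {N k : ℕ} (hk : 30 ≤ k) (hA : Nat.log (8 * k - 2) (2 * N) ≤ 1) :
    badSet N k = ∅ := by
  rw [Finset.eq_empty_iff_forall_notMem]
  intro p hp
  obtain ⟨h1, h2, h3⟩ := mem_badSet hp
  have h4 := log_le_A (N := N) hk h2
  have h5 : 2 * k * (2 + Nat.log p (2 * N)) ≤ 2 * k * 3 := Nat.mul_le_mul_left _ (by omega)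
  omega

theorem prod_le {N k B : ℕ} (hk : 30 ≤ k) (hA : Nat.log (8 * k - 2) (2 * N) = B + 2)
    (hB : B + 2 ≤ 99) : ∏ p ∈ badSet N k, fac N k p ≤ ((8 * k - 2) ^ 2) ^ (k * B + 1) := by
  calc ∏ p ∈ badSet N k, fac N k p ≤ ∏ _p ∈ badSet N k, (8 * k - 2) ^ 2 :=
        Finset.prod_le_prod' (fun p hp => fac_le hk hp (by omega))
    _ = ((8 * k - 2) ^ 2) ^ (badSet N k).card := by rw [Finset.prod_const]
    _ ≤ ((8 * k - 2) ^ 2) ^ (k * B + 1) :=
        Nat.pow_le_pow_right (Nat.pow_pos (by omega)) (card_badSet hk hA)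

/-- lower bound of the binomial coefficient -/
theorem log_choose_ge {N k : ℕ} (hk : 30 ≤ k) (hN : 4 * k ^ 2 ≤ N) :
    2 * k * (Real.log N - 2 * Real.log (4 * k) + 2) - 4 - Real.log (4 * k) ≤
      Real.log ((N + 2 * k).choose (4 * k)) - 2 * k * Real.log (N + 2 * k) := by
  have hkR : (30 : ℝ) ≤ k := by exact_mod_cast hk
  have hNR : 4 * (k : ℝ) ^ 2 ≤ N := by exact_mod_cast hN
  have hN0 : (0 : ℝ) < N := by nlinarith
  have h4k : 2 * k ≤ N := by nlinarith
  -- the binomial coefficient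
  have h1 : (N + 1 - 2 * k) ^ (4 * k) ≤ (N + 2 * k).choose (4 * k) * (4 * k).factorial := by
    have h := Nat.pow_sub_le_descFactorial (N + 2 * k) (4 * k)
    rw [Nat.descFactorial_eq_factorial_mul_choose, mul_comm (Nat.factorial _)] at h
    have e : N + 2 * k + 1 - 4 * k = N + 1 - 2 * k := by omega
    rwa [e] at h
  have hc : 0 < (N + 2 * k).choose (4 * k) := Nat.choose_pos (by nlinarith)
  have hcR : (0 : ℝ) < ((N + 2 * k).choose (4 * k) : ℕ) := by exact_mod_cast hc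
  have hfR : (0 : ℝ) < ((4 * k).factorial : ℕ) := by exact_mod_cast Nat.factorial_pos _
  have hx : (((N + 1 - 2 * k : ℕ)) : ℝ) = (N : ℝ) + 1 - 2 * k := by
    rw [Nat.cast_sub (by omega)]; push_cast; ring
  have hx0 : (0 : ℝ) < (N : ℝ) + 1 - 2 * k := by nlinarith
  have h2 : (4 * k : ℕ) * Real.log ((N : ℝ) + 1 - 2 * k) ≤
      Real.log ((N + 2 * k).choose (4 * k)) + Real.log ((4 * k).factorial) := by
    have h3 : (((N + 1 - 2 * k : ℕ)) : ℝ) ^ (4 * k) ≤
        (((N + 2 * k).choose (4 * k) : ℕ) : ℝ) * (((4 * k).factorial : ℕ) : ℝ) := by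
      exact_mod_cast h1
    rw [hx] at h3
    have h4 := Real.log_le_log (by positivity) h3
    rwa [Real.log_pow, Real.log_mul hcR.ne' hfR.ne'] at h4
  have h3 := log_factorial_le (m := 4 * k) (by omega)
  -- the two logarithms
  have h4 : Real.log N - 1 / (2 * k) ≤ Real.log ((N : ℝ) + 1 - 2 * k) := by
    have h5 := Real.one_sub_inv_le_log_of_pos (x := ((N : ℝ) + 1 - 2 * k) / N) (by positivity)
    rw [Real.log_div hx0.ne' hN0.ne', inv_div] at h5
    have h6 : (N : ℝ) / ((N : ℝ) + 1 - 2 * k) ≤ 1 + 1 / (2 * k) := by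
      rw [div_le_iff₀ hx0]
      have h7 : (1 + 1 / (2 * (k : ℝ))) * ((N : ℝ) + 1 - 2 * k) =
          N + (N + 1 - 4 * (k : ℝ) ^ 2) / (2 * k) := by
        field_simp
        ring
      rw [h7]
      have : 0 ≤ (N + 1 - 4 * (k : ℝ) ^ 2) / (2 * k) := div_nonneg (by linarith) (by positivity)
      linarith
    linarith
  have h5 : Real.log ((N : ℝ) + 2 * k) ≤ Real.log N + 1 / (2 * k) := by
    have h6 : Real.log (((N : ℝ) + 2 * k) / N) ≤ ((N : ℝ) + 2 * k) / N - 1 :=
      Real.log_le_sub_one_of_pos (by positivity)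
    rw [Real.log_div (by positivity) hN0.ne'] at h6
    have h7 : ((N : ℝ) + 2 * k) / N - 1 ≤ 1 / (2 * k) := by
      rw [add_div, div_self hN0.ne', add_sub_cancel_left, div_le_div_iff₀ hN0 (by positivity)]
      nlinarith
    linarith
  push_cast at h2 h3
  have h6 : 4 * (k : ℝ) * (Real.log N - 1 / (2 * k)) ≤ 4 * k * Real.log ((N : ℝ) + 1 - 2 * k) :=
    mul_le_mul_of_nonneg_left h4 (by positivity)
  have h7 : 2 * (k : ℝ) * Real.log ((N : ℝ) + 2 * k) ≤ 2 * k * (Real.log N + 1 / (2 * k)) :=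
    mul_le_mul_of_nonneg_left h5 (by positivity)
  have h8 : 4 * (k : ℝ) * (Real.log N - 1 / (2 * k)) = 4 * k * Real.log N - 2 := by
    field_simp
    ring
  have h9 : 2 * (k : ℝ) * (Real.log N + 1 / (2 * k)) = 2 * k * Real.log N + 1 := by
    field_simp
  rw [h8] at h6
  rw [h9] at h7
  linarith

theorem lam_ge {k : ℕ} (hk : 30 ≤ k) :
    Real.log (4 * k) + 0.68 ≤ Real.log ((8 * k - 2 : ℕ) : ℝ) := by
  have hkR : (30 : ℝ) ≤ k := by exact_mod_cast hk
  have e : ((8 * k - 2 : ℕ) : ℝ) = 8 * k - 2 := by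
    rw [Nat.cast_sub (by omega)]; push_cast; ring
  rw [e]
  have h0 : (0 : ℝ) < 8 * k - 2 := by linarith
  have h5 := Real.one_sub_inv_le_log_of_pos (x := (8 * (k : ℝ) - 2) / (2 * (4 * k)))
    (by positivity)
  rw [Real.log_div h0.ne' (by positivity), inv_div, Real.log_mul (by norm_num) (by positivity)]
    at h5
  have h6 : 2 * (4 * (k : ℝ)) / (8 * k - 2) ≤ 1 + 1 / 119 := by
    rw [div_le_iff₀ h0]
    linarith
  have h7 := Real.log_two_gt_d9
  linarith

theorem lam_le {k : ℕ} (hk : 30 ≤ k) : Real.log ((8 * k - 2 : ℕ) : ℝ) ≤ k := by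
  have hkR : (30 : ℝ) ≤ k := by exact_mod_cast hk
  have e : ((8 * k - 2 : ℕ) : ℝ) = 8 * k - 2 := by
    rw [Nat.cast_sub (by omega)]; push_cast; ring
  rw [e]
  have h0 : (0 : ℝ) < 8 * k - 2 := by linarith
  have h1 : Real.log ((8 * (k : ℝ) - 2) / 2 ^ 8) ≤ (8 * (k : ℝ) - 2) / 2 ^ 8 - 1 :=
    Real.log_le_sub_one_of_pos (by positivity)
  rw [Real.log_div h0.ne' (by norm_num), Real.log_pow] at h1
  have h7 := Real.log_two_lt_d9
  push_cast at h1
  linarith

theorem mid (hpi : Pi2Statement) : MidStatement := by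
  intro N k hk hN hlt
  have hkR : (30 : ℝ) ≤ k := by exact_mod_cast hk
  have hNR : 4 * (k : ℝ) ^ 2 ≤ N := by exact_mod_cast hN
  have hN0 : (0 : ℝ) < N := by nlinarith
  have hN1 : 0 < N := by exact_mod_cast hN0
  obtain ⟨A, hA⟩ : ∃ A, A = Nat.log (8 * k - 2) (2 * N) := ⟨_, rfl⟩
  have hA99 : A < 100 := by
    rw [hA]
    exact Nat.log_lt_of_lt_pow (by omega) hlt
  have hpk : (Nat.primesBelow (8 * k - 2)).card ≤ 2 * k := hpi.1 k (by omega)
  have hmain := log_choose_ge hk hN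
  have hl1 := lam_ge hk
  have hl2 := lam_le hk
  have hc : 0 < (N + 2 * k).choose (4 * k) := Nat.choose_pos (by nlinarith)
  have hcR : (0 : ℝ) < ((N + 2 * k).choose (4 * k) : ℕ) := by exact_mod_cast hc
  have hl3 : Real.log (4 * (k : ℝ)) ≤ k := by linarith
  unfold Win
  rcases Nat.lt_or_ge A 2 with h | h
  · rw [badSet_empty hk (by omega), Finset.prod_empty, mul_one]
    have h1 : (N + 2 * k) ^ (Nat.primesBelow (8 * k - 2)).card ≤ (N + 2 * k) ^ (2 * k) :=
      Nat.pow_le_pow_right (by omega) hpk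
    refine lt_of_le_of_lt h1 ?_
    have h2 : Real.log (((N + 2 * k) ^ (2 * k) : ℕ) : ℝ) <
        Real.log (((N + 2 * k).choose (4 * k) : ℕ) : ℝ) := by
      have e : (((N + 2 * k) ^ (2 * k) : ℕ) : ℝ) = ((N : ℝ) + 2 * k) ^ (2 * k) := by
        push_cast; ring
      rw [e, Real.log_pow]
      push_cast
      have h3 : 2 * Real.log (4 * k) - 2 * Real.log 2 ≤ Real.log N := by
        have h4 := Real.log_le_log (by positivity) hNR
        have e2 : 4 * (k : ℝ) ^ 2 = (4 * k) ^ 2 / 2 ^ 2 := by ring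
        rw [e2, Real.log_div (by positivity) (by positivity), Real.log_pow, Real.log_pow] at h4
        push_cast at h4
        linarith
      have h4 := Real.log_two_lt_d9
      have h5 : 2 * (k : ℝ) * 0.6137 ≤ 2 * k * (Real.log N - 2 * Real.log (4 * k) + 2) :=
        mul_le_mul_of_nonneg_left (by linarith) (by positivity)
      linarith
    have h3 := (Real.log_lt_log_iff (by positivity) hcR).1 h2
    exact_mod_cast h3
  · obtain ⟨B, hB⟩ : ∃ B, A = B + 2 := ⟨A - 2, by omega⟩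
    have h1 : (N + 2 * k) ^ (Nat.primesBelow (8 * k - 2)).card ≤ (N + 2 * k) ^ (2 * k) :=
      Nat.pow_le_pow_right (by omega) hpk
    have h2 := prod_le (N := N) hk (by rw [← hA]; exact hB) (by omega)
    refine lt_of_le_of_lt (Nat.mul_le_mul h1 h2) ?_
    have hm0 : (0 : ℝ) < ((8 * k - 2 : ℕ) : ℝ) := by
      have : 0 < 8 * k - 2 := by omega
      exact_mod_cast this
    have h3 : Real.log (((N + 2 * k) ^ (2 * k) * ((8 * k - 2) ^ 2) ^ (k * B + 1) : ℕ) : ℝ) <
        Real.log (((N + 2 * k).choose (4 * k) : ℕ) : ℝ) := by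
      have e : (((N + 2 * k) ^ (2 * k) * ((8 * k - 2) ^ 2) ^ (k * B + 1) : ℕ) : ℝ) =
          ((N : ℝ) + 2 * k) ^ (2 * k) * (((8 * k - 2 : ℕ) : ℝ) ^ 2) ^ (k * B + 1) := by
        push_cast; ring
      rw [e, Real.log_mul (by positivity) (by positivity), Real.log_pow, Real.log_pow,
        Real.log_pow]
      push_cast
      obtain ⟨lam, hlam⟩ : ∃ lam, lam = Real.log ((8 * k - 2 : ℕ) : ℝ) := ⟨_, rfl⟩
      have h4 : ((B : ℝ) + 2) * lam - Real.log 2 ≤ Real.log N := by
        have h5 : (8 * k - 2) ^ (B + 2) ≤ 2 * N := by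
          rw [← hB, hA]
          exact Nat.pow_log_le_self _ (by omega)
        have h6 : ((8 * k - 2 : ℕ) : ℝ) ^ (B + 2) ≤ 2 * (N : ℝ) := by exact_mod_cast h5
        have h7 := Real.log_le_log (by positivity) h6
        rw [Real.log_pow, Real.log_mul (by norm_num) hN0.ne', ← hlam] at h7
        push_cast at h7
        linarith
      rw [← hlam] at hl1 hl2 ⊢
      have h5 := Real.log_two_lt_d9
      have h6 : 2 * (k : ℝ) * ((B : ℝ) * lam + 2.66) ≤
          2 * k * (Real.log N - 2 * Real.log (4 * k) + 2) :=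
        mul_le_mul_of_nonneg_left (by linarith) (by positivity)
      nlinarith
    have hpos : 0 < (N + 2 * k) ^ (2 * k) * ((8 * k - 2) ^ 2) ^ (k * B + 1) :=
      Nat.mul_pos (Nat.pow_pos (by omega)) (Nat.pow_pos (Nat.pow_pos (by omega)))
    have h4 := (Real.log_lt_log_iff (by exact_mod_cast hpos) hcR).1 h3
    exact_mod_cast h4

end Pool.Agent.Lib.MP_ff3579_an.X.H61
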