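import Pool.Agent.Lib.MP_ff3579_an.X.Iface
import Pool.Agent.Lib.MP_ff3579_an.H78.Cheb2

/-!
Module NPX: a prime in `[9N/10, 11N/10]` for every `N ≥ 10^6`.
-/

set_option autoImplicit false

open Finset Filter

namespace Pool.Agent.Lib.MP_ff3579_an.X.H61

open Pool.Agent.Lib.MP_ff3579_an Pool.Agent.Lib.MP_ff3579_an.X Pool.Agent.Lib.MP_ff3579_an.H78

theorem psi_thirty : Chebyshev.psi ((30 : ℕ) : ℝ) ≤ 161.7 := by
  have h1 := Chebyshev.psi_le_const_mul_self (x := ((30 : ℕ) : ℝ)) (by positivity)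
  have h2 : Real.log 4 = 2 * Real.log 2 := by
    rw [show (4 : ℝ) = 2 ^ 2 by norm_num, Real.log_pow]; norm_num
  have h3 := Real.log_two_lt_d9
  rw [h2] at h1
  push_cast at h1 ⊢
  linarith

theorem log_25000 : Real.log 25000 ≤ 10.4 := by
  have h1 : Real.log 25000 ≤ Real.log (2 ^ 15) := Real.log_le_log (by norm_num) (by norm_num)
  rw [Real.log_pow] at h1
  have h3 := Real.log_two_lt_d9
  push_cast at h1
  linarith

theorem log_million : Real.log 1000000 ≤ 13.87 := by
  have h1 : Real.log 1000000 ≤ Real.log (2 ^ 20) := Real.log_le_log (by norm_num) (by norm_num)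
  rw [Real.log_pow] at h1
  have h3 := Real.log_two_lt_d9
  push_cast at h1
  linarith

theorem cheb_upper (X : ℕ) : cheb X ≤ 0.923 * X + 223 := by
  have hP := psi_thirty
  have h25 := log_25000
  rcases Nat.lt_or_ge X 30 with h | h
  · have h1 := cheb_le_psi X
    have h2 : Chebyshev.psi X ≤ Chebyshev.psi ((30 : ℕ) : ℝ) :=
      Chebyshev.psi_mono (by exact_mod_cast h.le)
    have h3 : (0 : ℝ) ≤ 0.923 * X := by positivity
    have h4 : cheb X ≤ 161.7 := h1.trans (h2.trans hP)
    linarith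
  · have h1 := (cheb_bounds h).2
    have hX0 : (0 : ℝ) < (X : ℝ) + 1 := by positivity
    have h2 : Real.log (((X : ℝ) + 1) / 25000) ≤ ((X : ℝ) + 1) / 25000 - 1 :=
      Real.log_le_sub_one_of_pos (by positivity)
    rw [Real.log_div hX0.ne' (by norm_num)] at h2
    have h3 := cA_le
    have h4 : cA * X ≤ 0.9228 * X := mul_le_mul_of_nonneg_right h3 (by positivity)
    have h5 : (5 : ℝ) * Real.log (X + 1) ≤ 0.0002 * X + 5 * (Real.log 25000 + 1) := by
      linarith
    linarith

theorem psi_upper_explicit (X : ℕ) : Chebyshev.psi X ≤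
    1.1076 * X + 223 * (Nat.log 6 X + 1) := by
  induction X using Nat.strong_induction_on with
  | _ X ih =>
    have h1 := psi_le_cheb X
    have h2 := cheb_upper X
    rcases Nat.lt_or_ge X 6 with h | h
    · have h3 : X / 6 = 0 := Nat.div_eq_of_lt h
      rw [h3, Nat.cast_zero, Chebyshev.psi_zero, add_zero] at h1
      have h4 : (0 : ℝ) ≤ 223 * Nat.log 6 X := by positivity
      have h5 : (0 : ℝ) ≤ X := by positivity
      linarith
    · have h3 := ih (X / 6) (Nat.div_lt_self (by omega) (by norm_num))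
      have h4 : Nat.log 6 (X / 6) + 1 = Nat.log 6 X := by
        rw [Nat.log_div_base]
        have : 1 ≤ Nat.log 6 X := Nat.le_log_of_pow_le (by norm_num) (by omega)
        omega
      have h5 : ((Nat.log 6 (X / 6) : ℕ) : ℝ) + 1 = Nat.log 6 X := by exact_mod_cast h4
      rw [h5] at h3
      have h6 : ((X / 6 : ℕ) : ℝ) ≤ X / 6 := by
        have := Nat.cast_div_le (α := ℝ) (m := X) (n := 6)
        simpa using this
      linarith

theorem nat_log_six_le {X : ℕ} (hX : 1 ≤ X) : ((Nat.log 6 X : ℕ) : ℝ) ≤ Real.log X := by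
  have h4 : (6 : ℝ) ^ Nat.log 6 X ≤ X := by
    exact_mod_cast Nat.pow_log_le_self 6 (by omega)
  have h5 := Real.log_le_log (by positivity) h4
  rw [Real.log_pow] at h5
  have h6 : (1 : ℝ) ≤ Real.log 6 := by
    rw [Real.le_log_iff_exp_le (by norm_num)]
    have := Real.exp_one_lt_d9
    linarith
  have h7 : ((Nat.log 6 X : ℕ) : ℝ) * 1 ≤ Nat.log 6 X * Real.log 6 :=
    mul_le_mul_of_nonneg_left h6 (by positivity)
  linarith

/-- `log x ≤ x / 10^6 + 12.87` -/
theorem log_le_lin {x : ℝ} (hx : 0 < x) : Real.log x ≤ x / 1000000 + 12.87 := by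
  have h2 : Real.log (x / 1000000) ≤ x / 1000000 - 1 :=
    Real.log_le_sub_one_of_pos (by positivity)
  rw [Real.log_div hx.ne' (by norm_num)] at h2
  have h3 := log_million
  linarith

theorem npx (hpst : PstStatement) : NpxStatement := by
  intro N hN
  by_contra hcon
  push Not at hcon
  obtain ⟨a, ha⟩ : ∃ a, a = 9 * N / 10 := ⟨_, rfl⟩
  obtain ⟨b, hb⟩ : ∃ b, b = 11 * N / 10 := ⟨_, rfl⟩
  -- no primes between
  have hθ : Chebyshev.theta b ≤ Chebyshev.theta a := by
    rw [Chebyshev.theta_eq_sum_primesLE_log, Chebyshev.theta_eq_sum_primesLE_log]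
    apply le_of_eq
    apply Finset.sum_congr _ (fun _ _ => rfl)
    ext p
    rw [Nat.mem_primesLE, Nat.mem_primesLE]
    constructor
    · rintro ⟨h1, h2⟩
      refine ⟨?_, h2⟩
      by_contra h3
      have h4 := hcon p h2 (by omega)
      omega
    · rintro ⟨h1, h2⟩
      exact ⟨by omega, h2⟩
  have h1 := hpst b (by omega)
  have h1' := (cheb_bounds (X := b) (by omega)).1
  have h1'' := cheb_le_psi b
  have h2 := psi_upper_explicit a
  have h3 := Chebyshev.theta_le_psi (a : ℝ)
  have hNR : (1000000 : ℝ) ≤ N := by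
    have : (10 : ℕ) ^ 6 = 1000000 := by norm_num
    rw [this] at hN
    exact_mod_cast hN
  have ha1 : (a : ℝ) ≤ 9 * N / 10 := by
    have : 10 * a ≤ 9 * N := by omega
    have : (10 : ℝ) * a ≤ 9 * N := by exact_mod_cast this
    linarith
  have hb1 : 11 * (N : ℝ) / 10 - 1 ≤ b := by
    have : 11 * N ≤ 10 * b + 10 := by omega
    have : (11 : ℝ) * N ≤ 10 * b + 10 := by exact_mod_cast this
    linarith
  have hb2 : (b : ℝ) ≤ 1.1 * N := by
    have : 10 * b ≤ 11 * N := by omega
    have : (10 : ℝ) * b ≤ 11 * N := by exact_mod_cast this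
    linarith
  have hs0 : 0 ≤ √(N : ℝ) := Real.sqrt_nonneg _
  have hs1 : (1000 : ℝ) ≤ √N := by
    apply Real.le_sqrt_of_sq_le
    linarith
  have hss : √(N : ℝ) * √N = N := Real.mul_self_sqrt (by positivity)
  have hsb : √(b : ℝ) ≤ 1.05 * √N := by
    rw [show (1.05 : ℝ) * √N = √((1.05) ^ 2 * N) by
      rw [Real.sqrt_mul (by norm_num), Real.sqrt_sq (by norm_num)]]
    apply Real.sqrt_le_sqrt
    have : (0 : ℝ) ≤ N := by positivity
    linarith
  have hsN : 1000 * √(N : ℝ) ≤ N := by
    have := mul_le_mul_of_nonneg_right hs1 hs0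
    rw [hss] at this
    exact this
  have hA := le_cA
  have hA1 : 0.9208 * (b : ℝ) ≤ cA * b := mul_le_mul_of_nonneg_right hA (by positivity)
  have hlb := log_le_lin (x := (b : ℝ) + 1) (by positivity)
  have ha0 : 1 ≤ a := by omega
  have hla := log_le_lin (x := (a : ℝ)) (by exact_mod_cast ha0)
  have hla' := nat_log_six_le ha0
  linarith

end Pool.Agent.Lib.MP_ff3579_an.X.H61
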